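import Pool.Agent.Lib.MP_391708_nt.QPA.H.All1

/-!
# For almost all shifts `a`, `n² + a` has exactly `k` prime factors for the expected number of `n`

For `k = 1` these are the primes `n² + a`.
-/

set_option autoImplicit false

namespace Pool.Agent.Results.MP_391708_nt.ExactlyK

open Filter Topology

/-- The product over the odd primes `w` of `1 - (-a|w)/(w-1)`, in increasing order, converges
to `h`. -/
def IsConst (a : ℤ) (h : ℝ) : Prop :=
  Tendsto (fun X : ℕ => ∏ w ∈ (Finset.range (X + 1)).filter (fun w => Nat.Prime w ∧ w ≠ 2),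
    (1 - (jacobiSym (-a) w : ℝ) / ((w : ℝ) - 1))) atTop (𝓝 h)

open scoped Classical in
/-- The number of the integers `a`, `|a| ≤ A`, without the property `E`. -/
noncomputable def exceptions (A : ℕ) (E : ℤ → Prop) : ℕ :=
  ((Finset.Icc (-(A : ℤ)) A).filter (fun a => ¬ E a)).card

open scoped Classical in
/-- Let `k ≥ 1`, and `θ > 7/10` if `k = 1`, `θ > 1/2` if `k ≥ 2`. There is `c > 0` such that, for
every `ε > 0`, all large `N` and all `A` with `N ^ θ ≤ A ≤ N`, all but at most `ε A` of the integers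
`a`, `|a| ≤ A`, are such that `|n² + a|` is a product of exactly `k` different primes for at least
`c h N / log N` of the `n` with `N < n ≤ 2 N`, where `h > 0` is the constant of the problem. -/
theorem result (k : ℕ) (θ : ℝ) (hk : (k = 1 ∧ 7 / 10 < θ) ∨ (2 ≤ k ∧ 1 / 2 < θ)) :
    ∃ c : ℝ, 0 < c ∧ ∀ ε : ℝ, 0 < ε →
      ∃ N₀ : ℕ, ∀ N A : ℕ, N₀ ≤ N → (N : ℝ) ^ θ ≤ A → A ≤ N →
      (exceptions A (fun a => ∃ h : ℝ, 0 < h ∧ IsConst a h ∧
        c * (h * (N / Real.log N)) ≤ (((Finset.Ioc N (2 * N)).filter (fun n : ℕ =>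
          Squarefree ((n : ℤ) ^ 2 + a).natAbs ∧
          ((n : ℤ) ^ 2 + a).natAbs.primeFactors.card = k)).card : ℝ)) : ℝ) ≤ ε * A :=
  Pool.Agent.Lib.MP391708.QPA.H.exactly k θ hk

end Pool.Agent.Results.MP_391708_nt.ExactlyK
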