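import Pool.Agent.Lib.MP_391708_nt.QPA.All

/-!
# The Hardy-Littlewood formula for the primes `n² + a` holds for almost all shifts `a`

`P a M` is the number of `1 ≤ n ≤ M` such that `|n² + a|` is a prime, `IsConst a h` says that
the product over the odd primes in the problem converges to `h`, `Li M` is `∫_2^M dt / log t`.
-/

set_option autoImplicit false

namespace Pool.Agent.Results.MP_391708_nt.HardyLittlewoodAlmostAll

open Filter Topology

/-- The number of `1 ≤ n ≤ M` such that `|n² + a|` is a prime. -/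
def P (a : ℤ) (M : ℕ) : ℕ :=
  ((Finset.Icc 1 M).filter (fun n : ℕ => Nat.Prime ((n : ℤ) ^ 2 + a).natAbs)).card

/-- The product over the odd primes `w` of `1 - (-a|w)/(w-1)`, in increasing order, converges
to `h`. -/
def IsConst (a : ℤ) (h : ℝ) : Prop :=
  Tendsto (fun X : ℕ => ∏ w ∈ (Finset.range (X + 1)).filter (fun w => Nat.Prime w ∧ w ≠ 2),
    (1 - (jacobiSym (-a) w : ℝ) / ((w : ℝ) - 1))) atTop (𝓝 h)

/-- `∫_2^M dt / log t`. -/
noncomputable def Li (M : ℕ) : ℝ := ∫ t in (2 : ℝ)..(M : ℝ), 1 / Real.log t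

open scoped Classical in
/-- The number of the integers `a`, `|a| ≤ A`, without the property `E`. -/
noncomputable def exceptions (A : ℕ) (E : ℤ → Prop) : ℕ :=
  ((Finset.Icc (-(A : ℤ)) A).filter (fun a => ¬ E a)).card

/-- **The Hardy-Littlewood formula for almost all shifts**: for `θ > 5/6`, `ε > 0`, all large `N`
and all `A` with `N ^ θ ≤ A ≤ N`, all but at most `ε A` of the integers `a`, `|a| ≤ A`, satisfy
`|P_a(M) - (h/2) Li(M)| ≤ ε h Li(N)` for all `2 ≤ M ≤ N`, where `h > 0` is the constant of the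
problem. -/
theorem result (θ ε : ℝ) (hθ : 5 / 6 < θ) (hε : 0 < ε) :
    ∃ N₀ : ℕ, ∀ N A : ℕ, N₀ ≤ N → (N : ℝ) ^ θ ≤ A → A ≤ N →
      (exceptions A (fun a => ∃ h : ℝ, 0 < h ∧ IsConst a h ∧ ∀ M : ℕ, 2 ≤ M → M ≤ N →
        |(P a M : ℝ) - 1 / 2 * h * Li M| ≤ ε * (h * Li N)) : ℝ) ≤ ε * A :=
  Pool.Agent.Lib.MP391708.QPA.all.1 θ ε hθ hε

end Pool.Agent.Results.MP_391708_nt.HardyLittlewoodAlmostAll
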