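import Pool.Agent.Lib.MP_3efbeb_nt.Odd.All

set_option autoImplicit false

/-!
Parity of the number of prime factors of admissible tuples without small prime factors.

Idea of the proof.  Let `λ` be the Liouville function, `k = |K|` odd, `Π(n) = ∏_{h ∈ K} λ(n + h)` and
`Λ_d(b) = ∏_{h ∈ K} λ(b + d h)`.  Let `q` be a prime, `q ≡ 1` modulo `2 ^ m M`, where `2 ^ m ≥ k` and `M` is the
factorial of a large constant; rough means: without prime factors below `q`.

(1) Let `U` be `K` together with `2 ^ m - k` dummy elements of weight `0`, `D = (q - 1) / 2 ^ m`, and for `A ⊆ U`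
let `E(A)` be the sum of the weights outside `A`.  Then `∏_{A ⊆ U} Λ_{1 + |A| D}(q Y + D E(A)) = 1`, since the
factors of an element `h` come in equal pairs.  The set `A = ∅` contributes `Π(q Y + D ∑ K)`, the set `A = U`
contributes `Λ_q(q Y) = λ(q) ^ k Π(Y) = - Π(Y)`, and there are `Nat.choose (2 ^ m) v` sets of size `v`, an even number
for `0 < v < 2 ^ m`.  So either `Π(Y) Π(q Y + D ∑ K) = -1`, or `Λ_d(b) Λ_d(c) = -1` for some `d < q` and two of the
elements `b, c`.

(2) For `d < q` and `b, c` as above, let `d a = L s + b c` with `L = ∏_{h ∈ H} (b + d h)(c + d h)`.  Then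
`a + b h + c g + d g h = (b + d g)(n_g + h) = (c + d h)(m_h + g)` with integers `n_g`, `m_h`, and for odd `k`
`∏_{g ∈ K} Π(n_g) ∏_{h ∈ K} Π(m_h) = Λ_d(b) Λ_d(c)`.  So `Π` takes both signs at the `2 k` numbers `n_g`, `m_h`.

All numbers which have to be rough are linear forms in one variable (`Y`, respectively `s`) without fixed
prime divisor below `q`, so that the Brun-Hooley sieve gives many values of this variable.
-/

namespace Pool.Agent.Lib.Old.MP_3efbeb_nt_OddTupleParity

open Finset
open scoped Classical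
open Pool.Agent.Lib.MP3efbeb.Odd

/-- Let `H` be a finite set of shifts which covers all classes modulo no prime, and `K ⊆ H` of odd size.
Then for some `C`, all `z ≥ 2` and all `x ≥ z ^ C`, at least `x / z ^ C` of the `n ≤ x` have all prime
factors of `∏ h ∈ H, (n + h)` larger than `z` and a number of prime factors of `∏ h ∈ K, (n + h)` of the
parity of `r`. -/
theorem result (H K : Finset ℕ) (hH : ∀ p : ℕ, p.Prime → ∃ a : ℕ, ∀ h ∈ H, ¬ p ∣ a + h)
    (hKH : K ⊆ H) (hK : Odd K.card) (r : ℕ) :
    ∃ C : ℕ, ∀ z : ℕ, 2 ≤ z → ∀ x : ℕ, z ^ C ≤ x →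
      x ≤ z ^ C * ((Icc 1 x).filter (fun n =>
        (∀ p : ℕ, p.Prime → p ∣ ∏ h ∈ H, (n + h) → z < p) ∧
        (∏ h ∈ K, (n + h)).primeFactorsList.length % 2 = r % 2)).card :=
  main_fin H K hH hKH hK r

end Pool.Agent.Lib.Old.MP_3efbeb_nt_OddTupleParity
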