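import Mathlib
import Pool.Agent.Lib.MP_769694_an.Chart

/-!
MP_769694_an, Q1: for every norm on a finite-dimensional real vector space and every real
analytic nonexpansive self-map with a fixed point, the fixed point set is a Lipschitz manifold.
-/

set_option autoImplicit false

namespace Pool.Agent.Lib.Old.MP_769694_an_FixLipschitzManifold

open Set Pool.Agent.Lib.MP_769694_an

/-- A subset `M` of a normed space is a Lipschitz manifold when every `p ∈ M` has a relatively
open neighbourhood `U` in `M` and a homeomorphism `e` of `U` onto an open subset `O` of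
`ℝ^k`, for some `k ≥ 0`, such that `e` and its inverse are both Lipschitz. -/
def IsLipschitzManifold {X : Type*} [NormedAddCommGroup X] (M : Set X) : Prop :=
  ∀ p ∈ M, ∃ U : Set X, p ∈ U ∧ U ⊆ M ∧ (∃ W : Set X, IsOpen W ∧ U = W ∩ M) ∧
    ∃ (k : ℕ) (O : Set (EuclideanSpace ℝ (Fin k))) (e : U ≃ₜ O), IsOpen O ∧
      (∃ K : NNReal, LipschitzWith K e) ∧ (∃ K : NNReal, LipschitzWith K e.symm)

/-- Let `X` be a finite-dimensional real normed space (arbitrary norm) and `f : X → X` real
analytic and nonexpansive with a fixed point. Then the fixed point set is a Lipschitz manifold. -/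
theorem result {X : Type*} [NormedAddCommGroup X] [NormedSpace ℝ X] [FiniteDimensional ℝ X]
    (f : X → X) (hana : ∀ x, AnalyticAt ℝ f x) (hnonexp : ∀ x y, ‖f x - f y‖ ≤ ‖x - y‖)
    (hfix : {x | f x = x}.Nonempty) :
    IsLipschitzManifold {x | f x = x} := by
  obtain ⟨v₀, hv₀⟩ := hfix
  have : ProperSpace X := FiniteDimensional.proper_real X
  obtain ⟨r, hr, hiff⟩ := exists_good hana hnonexp ⟨v₀, hv₀⟩
  have hset : {x | f x = x} = {x | r x = x} := by
    ext x; exact (hiff x).symm
  obtain ⟨k, g, h, hhg, hgh, ⟨K₁, hK₁⟩, ⟨K₂, hK₂⟩⟩ := exists_chart hr ((hiff v₀).mpr hv₀)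
  rw [hset]
  intro p hp
  refine ⟨{x | r x = x}, hp, subset_rfl, ⟨univ, isOpen_univ, (univ_inter _).symm⟩, k, univ, ?_⟩
  refine ⟨⟨⟨fun x => ⟨g x, mem_univ _⟩, fun c => h c, hhg, fun c => Subtype.ext (hgh c)⟩, ?_, ?_⟩,
    isOpen_univ, ⟨K₁, ?_⟩, ⟨K₂, ?_⟩⟩
  · exact hK₁.continuous.subtype_mk _
  · exact hK₂.continuous.comp continuous_subtype_val
  · intro x y
    exact hK₁ x y
  · intro x y
    exact hK₂ x y

end Pool.Agent.Lib.Old.MP_769694_an_FixLipschitzManifold
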