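import Mathlib

set_option autoImplicit false

/-!
# Equal-degree vertices joined by a path of length three

For every `n ≥ 2`, every graph with `2 n + 1` vertices and at least `n ^ 2 + n + 1` edges contains
two distinct vertices of equal degree that are joined by a path of length three.

Sketch. Let `v` be a vertex of maximum degree `D = n + m`, `A = N(v)`, `B = V \ A`, and assume no
such pair exists.  Looking only at paths `x - y - v - x'` we find:
* a vertex `y` of `A` whose degree occurs again in `A` has at most one neighbour in `A`, and at most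
  two such vertices have degree `|B| + 1`;
* a vertex `b ≠ v` of `B` whose degree occurs in `A` has at most one neighbour in `A`.
Let `S` be the set of vertices of `A` whose degree is unique in `A`, `s = |S|`.  Summing degrees
gives `2 m (m - 1) + def S + def B ≤ (2 m - 1) s`, where `def` sums `D - deg`.  As the degrees on
`S` are distinct, `def S ≥ s (s - 1) / 2`, and the discriminants are negative.
-/

namespace Pool.Agent.Lib.Old.MP_b875bc_co_EqualDegreePath

open Finset

/-- The sum of an injective integer-valued nonnegative function. -/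
lemma sum_choose_le {V : Type*} [DecidableEq V] (S : Finset V) (f : V → ℤ)
    (h0 : ∀ x ∈ S, 0 ≤ f x) (hf : Set.InjOn f S) :
    ((S.card : ℤ) * (S.card - 1)) ≤ 2 * ∑ x ∈ S, f x := by
  have h1 : ∑ x ∈ S, f x = ∑ z ∈ S.image f, z := by
    rw [Finset.sum_image hf]
  have h2 := Finset.sum_range_le_sum (s := S.image f) (c := 0) (by
    intro x hx
    obtain ⟨y, hy, rfl⟩ := Finset.mem_image.1 hx
    exact h0 y hy)
  rw [Finset.card_image_of_injOn hf] at h2
  have h3 : ∀ k : ℕ, 2 * ∑ i ∈ Finset.range k, ((0 : ℤ) + (i : ℤ)) = (k : ℤ) * (k - 1) := by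
    intro k
    induction k with
    | zero => simp
    | succ k ih =>
      rw [Finset.sum_range_succ, mul_add, ih]
      push_cast
      ring
  rw [h1]
  have := h3 S.card
  linarith


lemma arith_main (n m s β D : ℤ) (SA SB SS SAS dS dB cAS : ℤ)
    (e1 : cAS = D - s) (e2 : β = n + 1 - m) (e3 : D = n + m)
    (e4 : 2 * (n ^ 2 + n + 1) ≤ SA + SB) (e5 : SA = SAS + SS) (e6 : SAS ≤ cAS * β + 2)
    (hS : dS = s * D - SS) (hB : dB = β * D - SB) :
    2 * m * (m - 1) + dS + dB ≤ (2 * m - 1) * s := by
  subst hS hB e5 e1 e3 e2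
  nlinarith

lemma arith_tot (n SA SB : ℤ) (e4 : 2 * (n ^ 2 + n + 1) ≤ SA + SB) :
    ((n + 1) * (n + 1) - SA) + (n * (n + 1) - SB) ≤ n - 1 := by
  nlinarith

lemma arith_one (m s dS dB : ℤ) (hm : 1 ≤ m) (h : 2 * m * (m - 1) + dS + dB ≤ (2 * m - 1) * s)
    (hS : s * (s - 1) ≤ 2 * dS) (hB : 2 * m ≤ dB) : False := by
  nlinarith [sq_nonneg (2 * s - (4 * m - 1))]

lemma arith_two (m s dS dB fb : ℤ) (hm : 2 ≤ m)
    (h : 2 * m * (m - 1) + dS + dB ≤ (2 * m - 1) * s)
    (hS : (s + 1) * s ≤ 2 * (fb + dS)) (hB : fb ≤ dB) : False := by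
  nlinarith [sq_nonneg (2 * s - (4 * m - 3))]

lemma arith_three (m s dS dB : ℤ) (hm : 2 ≤ m) (h : 2 * m * (m - 1) + dS + dB ≤ (2 * m - 1) * s)
    (hS : 0 ≤ dS) (hB : 0 ≤ dB) (hs : s ≤ 1) : False := by
  nlinarith

section core

variable {V : Type*} [Fintype V] [DecidableEq V] (G : SimpleGraph V) [DecidableRel G.Adj]

lemma degree_split (A : Finset V) (x : V) :
    G.degree x = (G.neighborFinset x ∩ A).card + (G.neighborFinset x ∩ Aᶜ).card := by
  rw [← G.card_neighborFinset_eq_degree x]
  rw [← Finset.card_union_of_disjoint]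
  · rw [← Finset.inter_union_distrib_left]
    simp
  · exact Finset.disjoint_left.2 (fun a ha hb => by
      simp only [Finset.mem_inter, Finset.mem_compl] at ha hb
      exact hb.2 ha.2)

/-- The combinatorial core. -/
lemma core (n : ℕ) (hn : 2 ≤ n) (hV : Fintype.card V = 2 * n + 1)
    (hE : n ^ 2 + n + 1 ≤ G.edgeFinset.card)
    (P : ∀ x y v x' : V, G.Adj x y → G.Adj y v → G.Adj v x' → x ≠ v → x ≠ x' → y ≠ x' →
      G.degree x ≠ G.degree x') : False := by
  classical
  have hne : Nonempty V := by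
    rw [← Fintype.card_pos_iff]; omega
  obtain ⟨v, hv⟩ := G.exists_maximal_degree_vertex
  obtain ⟨D, hD⟩ : ∃ D, D = G.degree v := ⟨_, rfl⟩
  have hmax : ∀ x, G.degree x ≤ D := by
    intro x; rw [hD, ← hv]; exact G.degree_le_maxDegree x
  obtain ⟨A, hA⟩ : ∃ A, A = G.neighborFinset v := ⟨_, rfl⟩
  have hAmem : ∀ x, x ∈ A ↔ G.Adj v x := by intro x; rw [hA]; simp
  have hAcard : A.card = D := by rw [hA, hD]; simp
  have hvA : v ∉ A := by rw [hAmem]; exact G.loopless.irrefl v
  have hBcard : A.card + (Aᶜ).card = 2 * n + 1 := by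
    rw [Finset.card_add_card_compl, hV]
  have hvB : v ∈ Aᶜ := by simpa using hvA
  have hBpos : 1 ≤ (Aᶜ).card := Finset.card_pos.2 ⟨v, hvB⟩
  obtain ⟨β, hβ⟩ : ∃ β, β = (Aᶜ).card := ⟨_, rfl⟩
  -- degree sum
  have hsum : ∑ x, G.degree x = 2 * G.edgeFinset.card := G.sum_degrees_eq_twice_card_edges
  have hsplit : ∑ x ∈ A, G.degree x + ∑ x ∈ Aᶜ, G.degree x = ∑ x, G.degree x :=
    Finset.sum_add_sum_compl A _
  have hD1 : n + 1 ≤ D := by
    by_contra hlt
    have hle : ∑ x, G.degree x ≤ ∑ _x : V, n := by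
      apply Finset.sum_le_sum
      intro x _
      have := hmax x
      omega
    rw [Finset.sum_const, Finset.card_univ, hV, smul_eq_mul] at hle
    nlinarith
  -- claim a : vertices of `A` with a repeated degree in `A`
  have claim_a0 : ∀ y ∈ A, ∀ y' ∈ A, y' ≠ y → G.degree y' = G.degree y →
      G.neighborFinset y ∩ A ⊆ {y'} := by
    intro y hy y' hy' hne' hdeg z hz
    rw [Finset.mem_inter, SimpleGraph.mem_neighborFinset] at hz
    rw [Finset.mem_singleton]
    by_contra hzy
    have hyv : y ≠ v := by rintro rfl; exact hvA hy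
    exact P y z v y' hz.1 ((hAmem z).1 hz.2).symm ((hAmem y').1 hy') hyv (Ne.symm hne') hzy
      hdeg.symm
  have claim_a : ∀ y ∈ A, ∀ y' ∈ A, y' ≠ y → G.degree y' = G.degree y →
      G.degree y ≤ β + 1 := by
    intro y hy y' hy' hne' hdeg
    have h1 := Finset.card_le_card (claim_a0 y hy y' hy' hne' hdeg)
    rw [Finset.card_singleton] at h1
    have h2 : (G.neighborFinset y ∩ Aᶜ).card ≤ β := by
      rw [hβ]; exact Finset.card_le_card Finset.inter_subset_right
    have h3 := degree_split G A y
    omega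
  -- claim b
  have claim_b : ∀ y₁ ∈ A, ∀ y₂ ∈ A, ∀ y₃ ∈ A, y₁ ≠ y₂ → y₁ ≠ y₃ → y₂ ≠ y₃ →
      G.degree y₁ = β + 1 → G.degree y₂ = β + 1 → G.degree y₃ = β + 1 → False := by
    intro y₁ h₁ y₂ h₂ y₃ h₃ h12 h13 h23 d1 d2 d3
    have e2 := claim_a0 y₁ h₁ y₂ h₂ (Ne.symm h12) (by rw [d1, d2])
    have e3 := claim_a0 y₁ h₁ y₃ h₃ (Ne.symm h13) (by rw [d1, d3])
    have e4 : G.neighborFinset y₁ ∩ A = ∅ := by
      rw [Finset.eq_empty_iff_forall_notMem]
      intro z hz
      have a1 := Finset.mem_singleton.1 (e2 hz)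
      have a2 := Finset.mem_singleton.1 (e3 hz)
      exact h23 (a1.symm.trans a2)
    have h2 : (G.neighborFinset y₁ ∩ Aᶜ).card ≤ β := by
      rw [hβ]; exact Finset.card_le_card Finset.inter_subset_right
    have h3 := degree_split G A y₁
    rw [e4, Finset.card_empty] at h3
    omega
  -- claim c
  have claim_c : ∀ b ∈ Aᶜ, b ≠ v → ∀ a ∈ A, G.degree a = G.degree b → G.degree b + 1 ≤ β := by
    intro b hb hbv a ha hdeg
    have hbA : b ∉ A := by simpa using hb
    have h1 : G.neighborFinset b ∩ A ⊆ {a} := by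
      intro y hy
      rw [Finset.mem_inter, SimpleGraph.mem_neighborFinset] at hy
      rw [Finset.mem_singleton]
      by_contra hya
      have hba : b ≠ a := by rintro rfl; exact hbA ha
      exact P b y v a hy.1 ((hAmem y).1 hy.2).symm ((hAmem a).1 ha) hbv hba hya hdeg.symm
    have h1' := Finset.card_le_card h1
    rw [Finset.card_singleton] at h1'
    have h2 : G.neighborFinset b ∩ Aᶜ ⊆ (Aᶜ.erase v).erase b := by
      intro z hz
      rw [Finset.mem_inter, SimpleGraph.mem_neighborFinset] at hz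
      rw [Finset.mem_erase, Finset.mem_erase]
      refine ⟨?_, ?_, hz.2⟩
      · rintro rfl; exact G.loopless.irrefl _ hz.1
      · rintro rfl; exact hbA ((hAmem b).2 hz.1.symm)
    have h2' := Finset.card_le_card h2
    have hbmem : b ∈ Aᶜ.erase v := Finset.mem_erase.2 ⟨hbv, hb⟩
    rw [Finset.card_erase_of_mem hbmem, Finset.card_erase_of_mem hvB] at h2'
    have h3 := degree_split G A b
    have h4 : 0 < (Aᶜ.erase v).card := Finset.card_pos.2 ⟨b, hbmem⟩
    rw [Finset.card_erase_of_mem hvB] at h4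
    omega
  -- the set `S`
  obtain ⟨S, hS⟩ : ∃ S, S = A.filter (fun y => ∀ y' ∈ A, G.degree y' = G.degree y → y' = y) :=
    ⟨_, rfl⟩
  have hSA : S ⊆ A := by rw [hS]; exact Finset.filter_subset _ _
  have hSuniq : ∀ y ∈ S, ∀ y' ∈ A, G.degree y' = G.degree y → y' = y := by
    intro y hy; rw [hS, Finset.mem_filter] at hy; exact hy.2
  have hnS : ∀ y ∈ A \ S, ∃ y' ∈ A, y' ≠ y ∧ G.degree y' = G.degree y := by
    intro y hy
    rw [Finset.mem_sdiff, hS, Finset.mem_filter] at hy
    by_contra hcon
    apply hy.2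
    refine ⟨hy.1, fun y' hy' hd => ?_⟩
    by_contra hne'
    exact hcon ⟨y', hy', hne', hd⟩
  -- sum over `A \ S`
  have hsumAS : ∑ y ∈ A \ S, G.degree y ≤ (A \ S).card * β + 2 := by
    have h1 : ∑ y ∈ A \ S, G.degree y ≤
        ∑ y ∈ A \ S, (β + if G.degree y = β + 1 then 1 else 0) := by
      apply Finset.sum_le_sum
      intro y hy
      obtain ⟨y', hy', hne', hd⟩ := hnS y hy
      have := claim_a y (Finset.mem_sdiff.1 hy).1 y' hy' hne' hd
      split_ifs with hc
      · omega
      · omega
    rw [Finset.sum_add_distrib, Finset.sum_const, smul_eq_mul, ← Finset.card_filter] at h1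
    have h2 : ((A \ S).filter (fun y => G.degree y = β + 1)).card ≤ 2 := by
      by_contra hcon
      push Not at hcon
      obtain ⟨y₁, y₂, y₃, m1, m2, m3, h12, h13, h23⟩ := Finset.two_lt_card_iff.1 hcon
      simp only [Finset.mem_filter, Finset.mem_sdiff] at m1 m2 m3
      exact claim_b y₁ m1.1.1 y₂ m2.1.1 y₃ m3.1.1 h12 h13 h23 m1.2 m2.2 m3.2
    omega
  have hsumA : ∑ y ∈ A \ S, G.degree y + ∑ y ∈ S, G.degree y = ∑ y ∈ A, G.degree y :=
    Finset.sum_sdiff hSA
  have hcardAS : (A \ S).card + S.card = A.card := Finset.card_sdiff_add_card_eq_card hSA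
  -- deficits
  obtain ⟨f, hf⟩ : ∃ f : V → ℤ, f = fun x => (D : ℤ) - G.degree x := ⟨_, rfl⟩
  have hf0 : ∀ x, 0 ≤ f x := by
    intro x; rw [hf]; have := hmax x; simp only; omega
  have hfS : ∑ x ∈ S, f x = (S.card : ℤ) * D - ((∑ x ∈ S, G.degree x : ℕ) : ℤ) := by
    rw [hf]; simp [Finset.sum_sub_distrib]
  have hfB : ∑ x ∈ Aᶜ, f x = (β : ℤ) * D - ((∑ x ∈ Aᶜ, G.degree x : ℕ) : ℤ) := by
    rw [hf, hβ, Finset.sum_sub_distrib, Finset.sum_const, nsmul_eq_mul]; push_cast; ring
  have hfA : ∑ x ∈ A, f x = (A.card : ℤ) * D - ((∑ x ∈ A, G.degree x : ℕ) : ℤ) := by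
    rw [hf]; simp [Finset.sum_sub_distrib]
  -- the main inequality
  obtain ⟨m, hm⟩ : ∃ m : ℕ, D = n + m := ⟨D - n, by omega⟩
  have hm1 : 1 ≤ m := by omega
  have hβm : β + m = n + 1 := by omega
  obtain ⟨s, hs⟩ : ∃ s, s = S.card := ⟨_, rfl⟩
  have hmain : 2 * (m : ℤ) * (m - 1) + ∑ x ∈ S, f x + ∑ x ∈ Aᶜ, f x ≤ (2 * m - 1) * (s : ℤ) := by
    have e1 : ((A \ S).card : ℤ) = (D : ℤ) - s := by
      have : (A \ S).card + s = D := by rw [hs, hcardAS, hAcard]
      omega
    have e2 : (β : ℤ) = n + 1 - m := by omega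
    have e3 : (D : ℤ) = n + m := by omega
    have e4 : ((∑ x ∈ A, G.degree x : ℕ) : ℤ) + ((∑ x ∈ Aᶜ, G.degree x : ℕ) : ℤ) ≥
        2 * ((n : ℤ) ^ 2 + n + 1) := by
      have : 2 * (n ^ 2 + n + 1) ≤ ∑ x ∈ A, G.degree x + ∑ x ∈ Aᶜ, G.degree x := by
        rw [hsplit, hsum]; omega
      exact_mod_cast this
    have e5 : ((∑ x ∈ A, G.degree x : ℕ) : ℤ) =
        ((∑ x ∈ A \ S, G.degree x : ℕ) : ℤ) + ((∑ x ∈ S, G.degree x : ℕ) : ℤ) := by
      exact_mod_cast hsumA.symm
    have e6 : ((∑ y ∈ A \ S, G.degree y : ℕ) : ℤ) ≤ ((A \ S).card : ℤ) * β + 2 := by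
      exact_mod_cast hsumAS
    exact arith_main n m s β D _ _ _ _ _ _ _ e1 e2 e3 e4 e5 e6 (by rw [hfS, ← hs]) hfB
  -- injectivity of degrees on `S`
  have hinj : Set.InjOn f (S : Set V) := by
    intro x hx y hy hxy
    rw [hf] at hxy
    simp only at hxy
    have : G.degree x = G.degree y := by omega
    exact hSuniq y hy x (hSA hx) this
  have hS2 := sum_choose_le S f (fun x _ => hf0 x) hinj
  rw [← hs] at hS2
  by_cases hB : ∃ b ∈ Aᶜ, b ≠ v
  · obtain ⟨b, hb, hbv⟩ := hB
    have hfb : f b ≤ ∑ x ∈ Aᶜ, f x := Finset.single_le_sum (fun x _ => hf0 x) hb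
    by_cases hba : ∃ a ∈ A, G.degree a = G.degree b
    · obtain ⟨a, ha, hdeg⟩ := hba
      have h1 := claim_c b hb hbv a ha hdeg
      have h2 : 2 * (m : ℤ) ≤ f b := by
        rw [hf]; simp only; omega
      exact arith_one m s _ _ (by exact_mod_cast hm1) hmain hS2 (h2.trans hfb)
    · -- the degree of `b` does not occur in `A`
      have hbS : b ∉ S := fun h => (by simpa using hb : b ∉ A) (hSA h)
      have hinj' : Set.InjOn f ((insert b S : Finset V) : Set V) := by
        rw [Finset.coe_insert, Set.injOn_insert (by simpa using hbS)]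
        refine ⟨hinj, ?_⟩
        rintro ⟨a, ha, hab⟩
        apply hba
        refine ⟨a, hSA ha, ?_⟩
        rw [hf] at hab
        simp only at hab
        omega
      have h3 := sum_choose_le (insert b S) f (fun x _ => hf0 x) hinj'
      rw [Finset.card_insert_of_notMem hbS, Finset.sum_insert hbS, ← hs] at h3
      push_cast at h3
      rcases Nat.lt_or_ge m 2 with hm2 | hm2
      · -- `m = 1`
        have hm' : m = 1 := by omega
        subst hm'
        have hβn : β = n := by omega
        -- total deficit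
        have htot : ∑ x ∈ A, f x + ∑ x ∈ Aᶜ, f x ≤ (n : ℤ) - 1 := by
          have e4 : ((∑ x ∈ A, G.degree x : ℕ) : ℤ) + ((∑ x ∈ Aᶜ, G.degree x : ℕ) : ℤ) ≥
              2 * ((n : ℤ) ^ 2 + n + 1) := by
            have : 2 * (n ^ 2 + n + 1) ≤ ∑ x ∈ A, G.degree x + ∑ x ∈ Aᶜ, G.degree x := by
              rw [hsplit, hsum]; omega
            exact_mod_cast this
          have e7 := arith_tot n _ _ e4
          rw [hfA, hfB, hAcard, hβn, hm]
          push_cast at e7 ⊢
          exact e7
        have hfA0 : 0 ≤ ∑ x ∈ A, f x := Finset.sum_nonneg (fun x _ => hf0 x)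
        have hfB0 : 0 ≤ ∑ x ∈ Aᶜ, f x := Finset.sum_nonneg (fun x _ => hf0 x)
        -- vertices of `A` with non-maximal degree
        have hcnt : ((A.filter (fun x => ¬ G.degree x = D)).card : ℤ) ≤ ∑ x ∈ A, f x := by
          rw [Finset.card_filter]
          push_cast
          apply Finset.sum_le_sum
          intro x _
          have := hmax x
          rw [hf]
          simp only
          split_ifs with hc
          · omega
          · omega
        have hcnt2 : (A.filter (fun x => G.degree x = D)).card +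
            (A.filter (fun x => ¬ G.degree x = D)).card = A.card :=
          Finset.card_filter_add_card_filter_not _
        have hpos : 0 < (A.filter (fun x => G.degree x = D)).card := by
          omega
        obtain ⟨a, ha⟩ := Finset.card_pos.1 hpos
        rw [Finset.mem_filter] at ha
        -- every other vertex of `B` has deficit at least one
        have hBdef : ((Aᶜ.erase v).card : ℤ) ≤ ∑ x ∈ Aᶜ.erase v, f x := by
          have : ((Aᶜ.erase v).card : ℤ) = ∑ x ∈ Aᶜ.erase v, (1 : ℤ) := by simp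
          rw [this]
          apply Finset.sum_le_sum
          intro x hx
          rw [Finset.mem_erase] at hx
          have hx1 := hmax x
          rw [hf]
          simp only
          by_contra hlt
          have hxD : G.degree x = D := by omega
          have := claim_c x hx.2 hx.1 a ha.1 (by rw [ha.2, hxD])
          omega
        have hBsum : ∑ x ∈ Aᶜ.erase v, f x ≤ ∑ x ∈ Aᶜ, f x :=
          Finset.sum_le_sum_of_subset_of_nonneg (Finset.erase_subset _ _) (fun x _ _ => hf0 x)
        rw [Finset.card_erase_of_mem hvB, ← hβ] at hBdef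
        have hA00 : ∑ x ∈ A, f x ≤ 0 := by omega
        have hAD : ∀ x ∈ A, G.degree x = β + 1 := by
          intro x hx
          have h5 : f x ≤ ∑ x ∈ A, f x := Finset.single_le_sum (fun x _ => hf0 x) hx
          have h6 := hf0 x
          have h7 : f x = 0 := by omega
          rw [hf] at h7
          simp only at h7
          omega
        have h3A : 2 < A.card := by omega
        obtain ⟨y₁, y₂, y₃, m1, m2, m3, h12, h13, h23⟩ := Finset.two_lt_card_iff.1 h3A
        exact claim_b y₁ m1 y₂ m2 y₃ m3 h12 h13 h23 (hAD _ m1) (hAD _ m2) (hAD _ m3)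
      · -- `m ≥ 2`
        have hm2' : (2 : ℤ) ≤ m := by exact_mod_cast hm2
        exact arith_two m s _ _ _ hm2' hmain (by linarith) hfb
  · -- `B = {v}`
    push Not at hB
    have hBv : Aᶜ = {v} := by
      ext x
      rw [Finset.mem_singleton]
      exact ⟨fun h => hB x h, fun h => by rw [h]; exact hvB⟩
    have hβ1 : β = 1 := by rw [hβ, hBv, Finset.card_singleton]
    have hmn : m = n := by omega
    -- neighbours of vertices of `S`
    have hNS : ∀ y ∈ S, G.neighborFinset y ⊆ insert v (S.erase y) := by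
      intro y hy z hz
      rw [SimpleGraph.mem_neighborFinset] at hz
      rw [Finset.mem_insert, Finset.mem_erase]
      by_cases hzv : z = v
      · exact Or.inl hzv
      right
      have hzA : z ∈ A := by
        by_contra h
        exact hzv (hB z (by simpa using h))
      refine ⟨fun h => G.loopless.irrefl _ (h ▸ hz), ?_⟩
      by_contra hzS
      obtain ⟨z', hz', hne', hd⟩ := hnS z (Finset.mem_sdiff.2 ⟨hzA, hzS⟩)
      have := claim_a0 z hzA z' hz' hne' hd
        (Finset.mem_inter.2 ⟨(G.mem_neighborFinset z y).2 hz.symm, hSA hy⟩)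
      rw [Finset.mem_singleton] at this
      rw [← this] at hd
      exact hne' (by rw [← this]; exact (hSuniq y hy z hzA hd.symm).symm)
    have hdegS : ∀ y ∈ S, G.degree y ≤ s := by
      intro y hy
      have h1 := Finset.card_le_card (hNS y hy)
      rw [Finset.card_insert_of_notMem (by
        rw [Finset.mem_erase]; exact fun h => hvA (hSA h.2)), Finset.card_erase_of_mem hy,
        G.card_neighborFinset_eq_degree, ← hs] at h1
      have : 0 < S.card := Finset.card_pos.2 ⟨y, hy⟩
      omega
    have hdegS1 : ∀ y ∈ S, 1 ≤ G.degree y := by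
      intro y hy
      rw [Nat.succ_le_iff, SimpleGraph.degree_pos_iff_exists_adj]
      exact ⟨v, ((hAmem y).1 (hSA hy)).symm⟩
    have hs1 : s ≤ 1 := by
      by_contra hs2
      push Not at hs2
      have himg : S.image (fun y => G.degree y) = Finset.Icc 1 s := by
        apply Finset.eq_of_subset_of_card_le
        · intro k hk
          obtain ⟨y, hy, rfl⟩ := Finset.mem_image.1 hk
          rw [Finset.mem_Icc]
          exact ⟨hdegS1 y hy, hdegS y hy⟩
        · rw [Finset.card_image_of_injOn, ← hs]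
          · simp
          · intro x hx y hy hxy
            exact hSuniq y hy x (hSA hx) hxy
      have hmem1 : 1 ∈ S.image (fun y => G.degree y) := by
        rw [himg, Finset.mem_Icc]; omega
      have hmems : s ∈ S.image (fun y => G.degree y) := by
        rw [himg, Finset.mem_Icc]; omega
      obtain ⟨y, hy, hy1⟩ := Finset.mem_image.1 hmem1
      obtain ⟨z, hz, hzs⟩ := Finset.mem_image.1 hmems
      have hyz : y ≠ z := by
        rintro rfl
        omega
      -- `z` is adjacent to everything in `S`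
      have hNz : G.neighborFinset z = insert v (S.erase z) := by
        apply Finset.eq_of_subset_of_card_le (hNS z hz)
        rw [Finset.card_insert_of_notMem (by
          rw [Finset.mem_erase]; exact fun h => hvA (hSA h.2)), Finset.card_erase_of_mem hz,
          G.card_neighborFinset_eq_degree, ← hs]
        omega
      have hzy : G.Adj z y := by
        rw [← SimpleGraph.mem_neighborFinset, hNz, Finset.mem_insert, Finset.mem_erase]
        exact Or.inr ⟨hyz, hy⟩
      have h2 : ({v, z} : Finset V) ⊆ G.neighborFinset y := by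
        intro w hw
        rw [Finset.mem_insert, Finset.mem_singleton] at hw
        rw [SimpleGraph.mem_neighborFinset]
        rcases hw with rfl | rfl
        · exact ((hAmem y).1 (hSA hy)).symm
        · exact hzy.symm
      have h3 := Finset.card_le_card h2
      rw [Finset.card_pair (by rintro rfl; exact hvA (hSA hz)),
        G.card_neighborFinset_eq_degree] at h3
      omega
    have hfS0 : 0 ≤ ∑ x ∈ S, f x := Finset.sum_nonneg (fun x _ => hf0 x)
    have hfB0 : 0 ≤ ∑ x ∈ Aᶜ, f x := Finset.sum_nonneg (fun x _ => hf0 x)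
    have hs1' : (s : ℤ) ≤ 1 := by exact_mod_cast hs1
    have hs0' : (0 : ℤ) ≤ s := by positivity
    have hm2' : (2 : ℤ) ≤ m := by rw [hmn]; exact_mod_cast hn
    exact arith_three m s _ _ hm2' hmain hfS0 hfB0 hs1'

end core

/-- **Full answer to Q1** (with `at least n ^ 2 + n + 1` edges in place of `exactly`): for every
`n ≥ 2`, every graph on `2 n + 1` vertices with at least `n ^ 2 + n + 1` edges has two distinct
vertices of the same degree joined by a path of length three. -/
theorem result (n : ℕ) (hn : 2 ≤ n) (V : Type*) [Fintype V] [DecidableEq V]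
    (G : SimpleGraph V) [DecidableRel G.Adj]
    (hV : Fintype.card V = 2 * n + 1) (hE : n ^ 2 + n + 1 ≤ G.edgeFinset.card) :
    ∃ x₁ x₂ : V, x₁ ≠ x₂ ∧ G.degree x₁ = G.degree x₂ ∧
      ∃ p : G.Walk x₁ x₂, p.IsPath ∧ p.length = 3 := by
  by_contra hcon
  apply core G n hn hV hE
  intro x y v x' hxy hyv hvx' hxv hxx' hyx' hdeg
  apply hcon
  refine ⟨x, x', hxx', hdeg,
    SimpleGraph.Walk.cons hxy (SimpleGraph.Walk.cons hyv (SimpleGraph.Walk.cons hvx'
      SimpleGraph.Walk.nil)), ?_, ?_⟩
  · simp only [SimpleGraph.Walk.cons_isPath_iff, SimpleGraph.Walk.support_cons,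
      SimpleGraph.Walk.support_nil, List.mem_cons, List.not_mem_nil, or_false,
      SimpleGraph.Walk.IsPath.nil, true_and]
    refine ⟨⟨hvx'.ne, ?_⟩, ?_⟩
    · rintro (h | h)
      · exact hyv.ne h
      · exact hyx' h
    · rintro (h | h | h)
      · exact hxy.ne h
      · exact hxv h
      · exact hxx' h
  · rfl

end Pool.Agent.Lib.Old.MP_b875bc_co_EqualDegreePath
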