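import Pool.Agent.Lib.MP_c27bde_al.GF.Main

set_option autoImplicit false

namespace Pool.Agent.Lib.Old.MP_c27bde_al_GeometricallyFast

/-- Piecewise linear homeomorphisms of `[0,1]` (extended by the identity to the line) whose slopes
are powers of two (break points anywhere): near each point `g` is affine on the right and on the
left with slope `2^k`. -/
def PL2 (g : ℝ ≃o ℝ) : Prop :=
  (∀ x ≤ 0, g x = x) ∧ (∀ x, 1 ≤ x → g x = x) ∧
  (∀ x, ∃ k : ℤ, ∃ ε > 0, ∀ y, x ≤ y → y ≤ x + ε → g y = g x + (2:ℝ) ^ k * (y - x)) ∧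
  (∀ x, ∃ k : ℤ, ∃ ε > 0, ∀ y, x - ε ≤ y → y ≤ x → g y = g x + (2:ℝ) ^ k * (y - x))

/-- `m` is a marking of `g`: it contains exactly one point of each orbital of `g` (orbital =
component of the support; two moved points are in the same orbital if all points between them
are moved). -/
structure Marking (g : ℝ ≃o ℝ) (m : Set ℝ) : Prop where
  moved : ∀ s ∈ m, g s ≠ s
  all : ∀ w, g w ≠ w → ∃ s ∈ m, ∀ t ∈ Set.uIcc w s, g t ≠ t
  one : ∀ s ∈ m, ∀ s' ∈ m, (∀ t ∈ Set.uIcc s s', g t ≠ t) → s = s'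

/-- The union of the feet of `g` for the marking `m`: in the orbital `(u,v)` with marker `s` the
two feet are `(u, s)` and `[g s, v)` if `s < g s`, and `(u, g s)` and `[s, v)` if `g s < s`. -/
def feet (g : ℝ ≃o ℝ) (m : Set ℝ) : Set ℝ :=
  {w | g w ≠ w ∧ ∀ s ∈ m, w < min s (g s) ∨ max s (g s) ≤ w}

/-- `X` is geometrically fast with the markings `m` (Bleak, Brin, Kassabov, Moore, Zaremsky): the
feet of different elements are disjoint. -/
def Fast (X : Set (ℝ ≃o ℝ)) (m : (ℝ ≃o ℝ) → Set ℝ) : Prop :=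
  (∀ g ∈ X, Marking g (m g)) ∧ ∀ g ∈ X, ∀ h ∈ X, g ≠ h → Disjoint (feet g (m g)) (feet h (m h))

/-- No foot of `h` lies in a gap of `g`: if `p < q < r` are in the same orbital of the group
generated by `X` (every point of `[p,r]` is moved by some element of `X`), if `g` moves `p` and `r`
and `q` is in a foot of `h`, then `g` moves `q`. -/
def NoFootInGap (X : Set (ℝ ≃o ℝ)) (m : (ℝ ≃o ℝ) → Set ℝ) : Prop :=
  ∀ g ∈ X, ∀ h ∈ X, g ≠ h → ∀ p q r : ℝ, p < q → q < r → g p ≠ p → g r ≠ r →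
    (∀ t, p ≤ t → t ≤ r → ∃ z ∈ X, z t ≠ t) → q ∈ feet h (m h) → g q ≠ q

/-- `g` has only finitely many fixed points between any two moved points. -/
def Gapless (g : ℝ ≃o ℝ) : Prop :=
  ∀ p r : ℝ, g p ≠ p → g r ≠ r → {t | p ≤ t ∧ t ≤ r ∧ g t = t}.Finite

/-- The set `X` is geometrically fast, and no foot lies in a gap; or `X` has at most two elements;
or all elements of `X` are gapless. -/
def GoodFast (X : Set (ℝ ≃o ℝ)) : Prop :=
  ∃ m : (ℝ ≃o ℝ) → Set ℝ, Fast X m ∧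
    (NoFootInGap X m ∨ (∃ f g, X = {f, g}) ∨ ∀ g ∈ X, Gapless g)

/-- `X` is a finite set, no two elements of `X` have a common end of an orbital (the set of the
ends of the orbitals of `g` is the frontier of the support of `g`), and `X` has at most two
elements or all elements of `X` are gapless. -/
def GoodEnds (X : Set (ℝ ≃o ℝ)) : Prop :=
  X.Finite ∧ (∀ g ∈ X, ∀ h ∈ X, g ≠ h → Disjoint (frontier {w | g w ≠ w}) (frontier {w | h w ≠ w})) ∧
    ((∃ f g, X = {f, g}) ∨ ∀ g ∈ X, Gapless g)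

/-- Elementary amenable, as in the frozen statement. -/
def EA (H : Type) [Group H] : Prop :=
  ∀ C : (G : Type) → [Group G] → Prop,
    (∀ (G : Type) [Group G], Finite G → C G) →
    (∀ (G : Type) [Group G], (∀ a b : G, a * b = b * a) → C G) →
    (∀ (G : Type) [Group G] (K : Subgroup G), C G → C ↥K) →
    (∀ (G : Type) [Group G] (N : Subgroup G) [N.Normal], C G → C (G ⧸ N)) →
    (∀ (G : Type) [Group G] (N : Subgroup G) [N.Normal], C ↥N → C (G ⧸ N) → C G) →
    (∀ (G : Type) [Group G],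
      (∀ s : Finset G, C ↥(Subgroup.closure (s : Set G))) → C G) →
    (∀ (G G' : Type) [Group G] [Group G'], (G ≃* G') → C G → C G') →
    C H

/-- `H` satisfies the Brin-Sapir dichotomy (`T` = Thompson's group F): `H` is elementary amenable if
and only if it contains no copy of `T`. -/
def BrinSapir (T H : Type) [Group T] [Group H] : Prop :=
  EA H ↔ ¬ ∃ f : T →* H, Function.Injective f

/-- The Brin-Sapir conjecture for geometrically fast generating sets.  `T` is Thompson's group F,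
given by the presentation of the frozen statement.
(1) Groups of PL homeomorphisms (slopes powers of two) with a geometrically fast generating set
(finite or infinite, elements with any finite number of bumps) satisfy the dichotomy, provided that
no foot lies in a gap; this proviso is automatic for two generators and for gapless generators.
(2) If the elements of a finite set `X` have no common orbital ends and `X` has at most two elements
or is gapless, then all large powers generate groups that satisfy the dichotomy.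
(3) The same for subgroups of `T`, represented by the standard representation `ρ` of `T` as a
group of PL homeomorphisms (two generators `a`, `b` of `T` and their images are given). -/
theorem result :
    ∀ (T : Type) [Group T],
      Nonempty (T ≃* PresentedGroup
        ({(FreeGroup.of (0 : Fin 2) * (FreeGroup.of (1 : Fin 2))⁻¹) *
            ((FreeGroup.of (0 : Fin 2))⁻¹ * FreeGroup.of (1 : Fin 2) * FreeGroup.of (0 : Fin 2)) *
            (FreeGroup.of (0 : Fin 2) * (FreeGroup.of (1 : Fin 2))⁻¹)⁻¹ *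
            ((FreeGroup.of (0 : Fin 2))⁻¹ * FreeGroup.of (1 : Fin 2) * FreeGroup.of (0 : Fin 2))⁻¹,
          (FreeGroup.of (0 : Fin 2) * (FreeGroup.of (1 : Fin 2))⁻¹) *
            ((FreeGroup.of (0 : Fin 2))⁻¹ * (FreeGroup.of (0 : Fin 2))⁻¹ * FreeGroup.of (1 : Fin 2) *
              FreeGroup.of (0 : Fin 2) * FreeGroup.of (0 : Fin 2)) *
            (FreeGroup.of (0 : Fin 2) * (FreeGroup.of (1 : Fin 2))⁻¹)⁻¹ *
            ((FreeGroup.of (0 : Fin 2))⁻¹ * (FreeGroup.of (0 : Fin 2))⁻¹ * FreeGroup.of (1 : Fin 2) *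
              FreeGroup.of (0 : Fin 2) * FreeGroup.of (0 : Fin 2))⁻¹} :
          Set (FreeGroup (Fin 2)))) →
      (∀ X : Set (ℝ ≃o ℝ), (∀ g ∈ X, PL2 g) → GoodFast X →
        BrinSapir T ↥(Subgroup.closure X)) ∧
      (∀ X : Set (ℝ ≃o ℝ), (∀ g ∈ X, PL2 g) → GoodEnds X →
        ∃ N : ℕ, ∀ n ≥ N, BrinSapir T ↥(Subgroup.closure {h | ∃ g ∈ X, h = g ^ n})) ∧
      ∃ ρ : T →* (ℝ ≃o ℝ), Function.Injective ρ ∧ (∀ g, PL2 (ρ g)) ∧
        (∃ a b : T, Subgroup.closure {a, b} = ⊤ ∧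
          (∀ t, 0 ≤ t → t ≤ 1 / 2 → ρ a t = t / 2) ∧
          (∀ t, 1 / 2 ≤ t → t ≤ 3 / 4 → ρ a t = t - 1 / 4) ∧
          (∀ t, 3 / 4 ≤ t → t ≤ 1 → ρ a t = 2 * t - 1) ∧
          (∀ t, 0 ≤ t → t ≤ 1 / 2 → ρ b t = t) ∧
          (∀ t, 1 / 2 ≤ t → t ≤ 3 / 4 → ρ b t = t / 2 + 1 / 4) ∧
          (∀ t, 3 / 4 ≤ t → t ≤ 7 / 8 → ρ b t = t - 1 / 8) ∧
          (∀ t, 7 / 8 ≤ t → t ≤ 1 → ρ b t = 2 * t - 1)) ∧
        (∀ X : Set T, GoodFast (ρ '' X) → BrinSapir T ↥(Subgroup.closure X)) ∧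
        (∀ X : Set T, GoodEnds (ρ '' X) →
          ∃ N : ℕ, ∀ n ≥ N, BrinSapir T ↥(Subgroup.closure {h | ∃ g ∈ X, h = g ^ n})) := by
  intro T _ ⟨e⟩
  have hfeet : ∀ (g : ℝ ≃o ℝ) (m : Set ℝ), feet g m =
      FPT.GF.sp g \ {w | ∃ s ∈ m, min s (g s) ≤ w ∧ w < max s (g s)} := by
    intro g m
    ext w
    constructor
    · rintro ⟨h1, h2⟩
      refine ⟨h1, ?_⟩
      rintro ⟨s, hs, h3, h4⟩
      rcases h2 s hs with h | h
      · exact absurd h (not_lt.2 h3)
      · exact absurd h4 (not_lt.2 h)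
    · rintro ⟨h1, h2⟩
      refine ⟨h1, fun s hs => ?_⟩
      by_contra hcon
      push Not at hcon
      exact h2 ⟨s, hs, hcon.1, hcon.2⟩
  -- the fundamental sets
  have key : ∀ (X : Set (ℝ ≃o ℝ)) (m : (ℝ ≃o ℝ) → Set ℝ), Fast X m →
      FPT.GF.GFast X (fun g => {w | ∃ s ∈ m g, min s (g s) ≤ w ∧ w < max s (g s)}) := by
    intro X m hF
    refine ⟨fun g hg => ?_, fun g hg h hh hgh => ?_⟩
    · exact ⟨m g, (hF.1 g hg).moved, (hF.1 g hg).all, (hF.1 g hg).one, rfl⟩
    · have := hF.2 g hg h hh hgh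
      rwa [hfeet, hfeet] at this
  have part1 : ∀ X : Set (ℝ ≃o ℝ), (∀ g ∈ X, PL2 g) → GoodFast X →
      BrinSapir T ↥(Subgroup.closure X) := by
    rintro X hX ⟨m, hF, hcase⟩
    have hGF := key X m hF
    have hN : FPT.GF.NoGap X (fun g => {w | ∃ s ∈ m g, min s (g s) ≤ w ∧ w < max s (g s)}) := by
      rcases hcase with h | ⟨f, g, hfg⟩ | h
      · intro g hg h' hh' hne p q r hpq hqr hp hr hmov hq
        refine h g hg h' hh' hne p q r hpq hqr hp hr hmov ?_
        rw [hfeet]; exact hq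
      · subst hfg
        exact FPT.GF.MainM.ng.pair f g _ (hX f (by simp)) (hX g (by simp)) hGF
      · exact FPT.GF.MainM.ng.gapless X _ hX hGF h
    exact FPT.GF.MainM.bsap T e X _ hX hGF hN
  have part2 : ∀ X : Set (ℝ ≃o ℝ), (∀ g ∈ X, PL2 g) → GoodEnds X →
      ∃ N : ℕ, ∀ n ≥ N, BrinSapir T ↥(Subgroup.closure {h | ∃ g ∈ X, h = g ^ n}) := by
    rintro X hX ⟨hfin, hdis, hcase⟩
    obtain ⟨N, hN⟩ := FPT.GF.MainM.pw X hfin hX hdis
    refine ⟨N + 1, fun n hn => ?_⟩
    obtain ⟨D, hD⟩ := hN n (by omega)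
    have himg : {h | ∃ g ∈ X, h = g ^ n} = (fun g : FPT.Hm => g ^ n) '' X := by
      ext h
      constructor
      · rintro ⟨g, hg, rfl⟩; exact ⟨g, hg, rfl⟩
      · rintro ⟨g, hg, rfl⟩; exact ⟨g, hg, rfl⟩
    rw [himg]
    have hpl : ∀ g ∈ (fun g : FPT.Hm => g ^ n) '' X, FPT.IsPL g := by
      rintro _ ⟨g, hg, rfl⟩
      exact FPT.FINM.pl2.pow g n (hX g hg)
    have hNG : FPT.GF.NoGap ((fun g : FPT.Hm => g ^ n) '' X) D := by
      rcases hcase with ⟨f, g, hfg⟩ | h
      · subst hfg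
        rw [Set.image_pair] at hD ⊢
        rw [Set.image_pair] at hpl
        exact FPT.GF.MainM.ng.pair _ _ _ (hpl _ (by simp)) (hpl _ (by simp)) hD
      · refine FPT.GF.MainM.ng.gapless _ _ hpl hD ?_
        rintro _ ⟨g, hg, rfl⟩ p r hp hr
        have hp' : g p ≠ p := fun hc => hp (FPT.FINM.ord.powf g n p hc)
        have hr' : g r ≠ r := fun hc => hr (FPT.FINM.ord.powf g n r hc)
        refine (h g hg p r hp' hr').subset ?_
        rintro t ⟨h1, h2, h3⟩
        exact ⟨h1, h2, FPT.FINM.ord.powi g n t (by omega) h3⟩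
    exact FPT.GF.MainM.bsap T e _ D hpl hD hNG
  obtain ⟨ρ, hρ, hρpl, hab⟩ := FPT.GF.MainM.exists_rep T e
  refine ⟨part1, part2, ρ, hρ, hρpl, hab, ?_, ?_⟩
  · intro X hX
    refine FPT.GF.MainM.bsap_of_inj T ρ hρ X (part1 _ ?_ hX)
    rintro _ ⟨g, -, rfl⟩
    exact hρpl _
  · intro X hX
    obtain ⟨N, hN⟩ := part2 _ (by rintro _ ⟨g, -, rfl⟩; exact hρpl _) hX
    refine ⟨N, fun n hn => ?_⟩
    have h := hN n hn
    have himg : {h | ∃ g ∈ ρ '' X, h = g ^ n} = ρ '' {h | ∃ g ∈ X, h = g ^ n} := by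
      ext z
      constructor
      · rintro ⟨_, ⟨g, hg, rfl⟩, rfl⟩
        exact ⟨g ^ n, ⟨g, hg, rfl⟩, map_pow _ g n⟩
      · rintro ⟨_, ⟨g, hg, rfl⟩, rfl⟩
        exact ⟨_, ⟨g, hg, rfl⟩, map_pow _ g n⟩
    rw [himg] at h
    exact FPT.GF.MainM.bsap_of_inj T ρ hρ _ h

end Pool.Agent.Lib.Old.MP_c27bde_al_GeometricallyFast
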